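import Pool.Agent.P.MP_c821f2_co.Data

namespace Pool.Agent.P.MP_c821f2_co

variable {E : Type}

/-- The sign vector coded by a number: bit `i` for `+`, bit `i + 11` for `-`. -/
def sv (ι : E → ℕ) (r : ℕ) : E → SignType :=
  fun x => if r.testBit (ι x) then 1 else if r.testBit (ι x + 11) then -1 else 0

def fam (ι : E → ℕ) (l : List ℕ) : Set (E → SignType) :=
  {X | ∃ r ∈ l, X = sv ι r ∨ X = -sv ι r}

def col (P : ℕ → Bool) : List ℕ → ℕ
  | [] => 0
  | r :: l => Nat.bit (P r) (col P l)

theorem col_or (P Q : ℕ → Bool) (l : List ℕ) :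
    col (fun r => P r || Q r) l = col P l ||| col Q l := by
  induction l with
  | nil => simp [col]
  | cons r l ih => simp only [col, Nat.lor_bit, ih]

theorem col_false (l : List ℕ) : col (fun _ => false) l = 0 := by
  induction l with
  | nil => rfl
  | cons r l ih => simp [col, ih]

theorem col_inj {P Q : ℕ → Bool} {l : List ℕ} (h : col P l = col Q l) : ∀ r ∈ l, P r = Q r := by
  induction l with
  | nil => simp
  | cons r l ih =>
    simp only [col] at h
    have h1 : P r = Q r := by simpa using congrArg Nat.bodd h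
    have h2 : col P l = col Q l := by simpa using congrArg Nat.div2 h
    intro x hx
    rcases List.mem_cons.1 hx with rfl | hx
    · exact h1
    · exact ih h2 x hx

def isP (i r : ℕ) : Bool := r.testBit i
def isN (i r : ℕ) : Bool := !r.testBit i && r.testBit (i + 11)

def cols (is : List ℕ) (l : List ℕ) : List (ℕ × ℕ × ℕ) :=
  is.map fun i => (i, col (isP i) l, col (isN i) l)

def agr (d : ℕ) : List (ℕ × ℕ × ℕ) → ℕ
  | [] => 0
  | (i, p, q) :: t =>
    cond (d.testBit i) (p ||| agr d t) (cond (d.testBit (i + 11)) (q ||| agr d t) (agr d t))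

def dis (d : ℕ) : List (ℕ × ℕ × ℕ) → ℕ
  | [] => 0
  | (i, p, q) :: t =>
    cond (d.testBit i) (q ||| dis d t) (cond (d.testBit (i + 11)) (p ||| dis d t) (dis d t))

theorem agr_cols (d : ℕ) (is l : List ℕ) : agr d (cols is l) =
    col (fun r => is.any fun i => (isP i d && isP i r) || (isN i d && isN i r)) l := by
  induction is with
  | nil => simp [cols, agr, col_false]
  | cons i is ih =>
    simp only [cols, List.map_cons, agr, List.any_cons] at ih ⊢
    rw [col_or, ← ih]
    cases h1 : d.testBit i <;> cases h2 : d.testBit (i + 11) <;>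
      simp [isP, isN, h1, h2, col_false] <;> rfl

theorem dis_cols (d : ℕ) (is l : List ℕ) : dis d (cols is l) =
    col (fun r => is.any fun i => (isP i d && isN i r) || (isN i d && isP i r)) l := by
  induction is with
  | nil => simp [cols, dis, col_false]
  | cons i is ih =>
    simp only [cols, List.map_cons, dis, List.any_cons] at ih ⊢
    rw [col_or, ← ih]
    cases h1 : d.testBit i <;> cases h2 : d.testBit (i + 11) <;>
      simp [isP, isN, h1, h2, col_false] <;> rfl

def orth1 (cs : List (ℕ × ℕ × ℕ)) (d : ℕ) : Bool := Nat.beq (agr d cs) (dis d cs)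

theorem sv_mul_one (ι : E → ℕ) (r d : ℕ) (x : E) : sv ι r x * sv ι d x = 1 ↔
    ((isP (ι x) d && isP (ι x) r) || (isN (ι x) d && isN (ι x) r)) = true := by
  unfold sv isP isN
  cases r.testBit (ι x) <;> cases r.testBit (ι x + 11) <;> cases d.testBit (ι x) <;>
    cases d.testBit (ι x + 11) <;> decide

theorem sv_mul_neg_one (ι : E → ℕ) (r d : ℕ) (x : E) : sv ι r x * sv ι d x = -1 ↔
    ((isP (ι x) d && isN (ι x) r) || (isN (ι x) d && isP (ι x) r)) = true := by
  unfold sv isP isN
  cases r.testBit (ι x) <;> cases r.testBit (ι x + 11) <;> cases d.testBit (ι x) <;>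
    cases d.testBit (ι x + 11) <;> decide

theorem col_congr {P Q : ℕ → Bool} {l : List ℕ} (h : ∀ r ∈ l, P r = Q r) : col P l = col Q l := by
  induction l with
  | nil => rfl
  | cons r l ih =>
    simp only [col]
    rw [h r (by simp), ih (fun x hx => h x (by simp [hx]))]

theorem orth1_iff {ι : E → ℕ} {is : List ℕ} (hι : ∀ i, i ∈ is ↔ ∃ x, ι x = i) (l : List ℕ)
    (d : ℕ) : orth1 (cols is l) d = true ↔ sv ι d ∈ perp (fam ι l) := by
  have key : ∀ r, Orth (sv ι r) (sv ι d) ↔
      (is.any fun i => (isP i d && isP i r) || (isN i d && isN i r)) =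
      (is.any fun i => (isP i d && isN i r) || (isN i d && isP i r)) := by
    intro r
    unfold Orth
    simp only [sv_mul_one, sv_mul_neg_one]
    rw [Bool.eq_iff_iff]
    simp only [List.any_eq_true, hι]
    constructor
    · intro h
      constructor
      · rintro ⟨_, ⟨x, rfl⟩, hx⟩
        obtain ⟨y, hy⟩ := h.1 ⟨x, hx⟩
        exact ⟨_, ⟨y, rfl⟩, hy⟩
      · rintro ⟨_, ⟨x, rfl⟩, hx⟩
        obtain ⟨y, hy⟩ := h.2 ⟨x, hx⟩
        exact ⟨_, ⟨y, rfl⟩, hy⟩
    · intro h
      constructor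
      · rintro ⟨x, hx⟩
        obtain ⟨_, ⟨y, rfl⟩, hy⟩ := h.1 ⟨_, ⟨x, rfl⟩, hx⟩
        exact ⟨y, hy⟩
      · rintro ⟨x, hx⟩
        obtain ⟨_, ⟨y, rfl⟩, hy⟩ := h.2 ⟨_, ⟨x, rfl⟩, hx⟩
        exact ⟨y, hy⟩
  unfold orth1
  rw [Nat.beq_eq, agr_cols, dis_cols]
  constructor
  · rintro h C ⟨r, hr, rfl | rfl⟩
    · exact (key r).2 (col_inj h r hr)
    · exact orth_neg_left ((key r).2 (col_inj h r hr))
  · intro h
    exact col_congr fun r hr => (key r).1 (h _ ⟨r, hr, Or.inl rfl⟩)

def sp (r : ℕ) : ℕ := Nat.mod (Nat.lor r (Nat.shiftRight r 11)) 2048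

theorem sp_eq (r : ℕ) : sp r = (r ||| (r >>> 11)) % 2 ^ 11 := rfl

theorem sp_lt (r : ℕ) : sp r < 2048 := Nat.mod_lt _ (by norm_num)

theorem sp_testBit (ι : E → ℕ) (r : ℕ) (x : E) (hx : ι x < 11) :
    (sp r).testBit (ι x) = true ↔ sv ι r x ≠ 0 := by
  unfold sv
  rw [sp_eq, Nat.testBit_mod_two_pow, Nat.testBit_or, Nat.testBit_shiftRight, Nat.add_comm 11]
  cases r.testBit (ι x) <;> cases r.testBit (ι x + 11) <;> simp [hx]

def famC : List ℕ → ℕ
  | [] => 0
  | r :: l => Nat.lor (Nat.shiftLeft 1 (sp r)) (famC l)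

def famD (full : ℕ) : List ℕ → ℕ
  | [] => 0
  | r :: l => Nat.lor (Nat.shiftLeft 1 (Nat.xor full (sp r))) (famD full l)

def up : List (ℕ × ℕ × ℕ) → ℕ → ℕ
  | [], F => F
  | (_, s, M) :: t, F => up t (Nat.lor F (Nat.shiftLeft (Nat.land F M) s))

def down : List (ℕ × ℕ × ℕ) → ℕ → ℕ
  | [], G => G
  | (_, s, M) :: t, G => down t (Nat.lor G (Nat.land (Nat.shiftRight G s) M))

def paintCheck (mk : List (ℕ × ℕ × ℕ)) (all FC FD : ℕ) : Bool :=
  mk.all fun t => Nat.beq
    (Nat.land all (Nat.lor (Nat.lor (up mk (Nat.xor FC (Nat.land FC t.2.2)))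
      (down mk (Nat.shiftLeft (Nat.land FD t.2.2) t.2.1))) t.2.2)) all

def MkSpec (mk : List (ℕ × ℕ × ℕ)) : Prop :=
  ∀ t ∈ mk, t.2.1 = 2 ^ t.1 ∧ (∀ T, t.2.2.testBit T = true →
    T + t.2.1 = T ||| t.2.1 ∧ T.testBit t.1 = false) ∧
    ∀ T < 2048, t.2.2.testBit T = false → T.testBit t.1 = true

theorem mk11_aux : mk11.all (fun t => Nat.beq t.2.1 (2 ^ t.1) && Nat.blt t.2.2 (2 ^ 2048) &&
    (List.range 2048).all fun T => cond (t.2.2.testBit T)
      (Nat.beq (T + t.2.1) (T ||| t.2.1) && !T.testBit t.1) (T.testBit t.1)) = true := by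
  decide +kernel

set_option exponentiation.threshold 4096 in
theorem mk11_spec : MkSpec mk11 := by
  intro t ht
  have h := List.all_eq_true.1 mk11_aux t ht
  simp only [Bool.and_eq_true, Nat.beq_eq, Nat.blt_eq, List.all_eq_true, List.mem_range] at h
  refine ⟨h.1.1, fun T hT => ?_, fun T hT h0 => ?_⟩
  · have hlt : T < 2048 := by
      by_contra hc
      rw [Nat.testBit_lt_two_pow (lt_of_lt_of_le h.1.2
        (Nat.pow_le_pow_right (by norm_num) (by omega)))] at hT
      exact absurd hT (by simp)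
    have h1 := h.2 T hlt
    rw [hT] at h1
    simpa using h1
  · have h1 := h.2 T hT
    rw [h0] at h1
    exact h1

theorem sub_of_and {T S : ℕ} (h : T &&& S = T) {j : ℕ} (hj : T.testBit j = true) :
    S.testBit j = true := by
  have := congrArg (fun n => n.testBit j) h
  simp only [Nat.testBit_and, hj, Bool.true_and] at this
  exact this

theorem testBit_one_shl {s S : ℕ} (h : (1 <<< s).testBit S = true) : S = s := by
  rw [Nat.one_shiftLeft, Nat.testBit_two_pow] at h
  exact (of_decide_eq_true h).symm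

theorem up_inv {mk : List (ℕ × ℕ × ℕ)} (hmk : MkSpec mk) (P : ℕ → Prop)
    (hP : ∀ T S, P T → (∀ j, T.testBit j = true → S.testBit j = true) → P S) :
    ∀ F, (∀ S, F.testBit S = true → P S) → ∀ S, (up mk F).testBit S = true → P S := by
  induction mk with
  | nil => intro F h; exact h
  | cons t mk ih =>
    obtain ⟨i, s, M⟩ := t
    intro F h
    apply ih (fun t ht => hmk t (by simp [ht]))
    intro S hS
    change (F ||| ((F &&& M) <<< s)).testBit S = true at hS
    simp only [Nat.testBit_or, Nat.testBit_shiftLeft, Nat.testBit_and, Bool.or_eq_true,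
      Bool.and_eq_true, decide_eq_true_eq] at hS
    rcases hS with hS | ⟨h1, h2, h3⟩
    · exact h S hS
    · have := ((hmk (i, s, M) (by simp)).2.1 _ h3).1
      simp only at this
      rw [Nat.sub_add_cancel h1] at this
      exact hP _ _ (h _ h2) (fun j hj => by rw [this, Nat.testBit_or, hj]; rfl)

theorem down_inv {mk : List (ℕ × ℕ × ℕ)} (hmk : MkSpec mk) (P : ℕ → Prop)
    (hP : ∀ T S, P S → (∀ j, T.testBit j = true → S.testBit j = true) → P T) :
    ∀ F, (∀ S, F.testBit S = true → P S) → ∀ S, (down mk F).testBit S = true → P S := by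
  induction mk with
  | nil => intro F h; exact h
  | cons t mk ih =>
    obtain ⟨i, s, M⟩ := t
    intro F h
    apply ih (fun t ht => hmk t (by simp [ht]))
    intro S hS
    change (F ||| ((F >>> s) &&& M)).testBit S = true at hS
    simp only [Nat.testBit_or, Nat.testBit_shiftRight, Nat.testBit_and, Bool.or_eq_true,
      Bool.and_eq_true] at hS
    rcases hS with hS | ⟨h2, h3⟩
    · exact h S hS
    · have := ((hmk (i, s, M) (by simp)).2.1 _ h3).1
      simp only at this
      rw [Nat.add_comm S s] at this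
      exact hP _ _ (h _ h2) (fun j hj => by rw [this, Nat.testBit_or, hj]; rfl)

theorem famC_spec (l : List ℕ) (S : ℕ) (h : (famC l).testBit S = true) : ∃ r ∈ l, S = sp r := by
  induction l with
  | nil => simp [famC] at h
  | cons r l ih =>
    change ((1 <<< sp r) ||| famC l).testBit S = true at h
    simp only [Nat.testBit_or, Bool.or_eq_true] at h
    rcases h with h | h
    · exact ⟨r, by simp, testBit_one_shl h⟩
    · obtain ⟨s', h1, h2⟩ := ih h
      exact ⟨s', List.mem_cons_of_mem _ h1, h2⟩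

theorem famD_spec (full : ℕ) (l : List ℕ) (S : ℕ) (h : (famD full l).testBit S = true) :
    ∃ r ∈ l, S = full ^^^ sp r := by
  induction l with
  | nil => simp [famD] at h
  | cons r l ih =>
    change ((1 <<< (full ^^^ sp r)) ||| famD full l).testBit S = true at h
    simp only [Nat.testBit_or, Bool.or_eq_true] at h
    rcases h with h | h
    · exact ⟨r, by simp, testBit_one_shl h⟩
    · obtain ⟨s', h1, h2⟩ := ih h
      exact ⟨s', List.mem_cons_of_mem _ h1, h2⟩

theorem exists_mask (m : ℕ) (P : ℕ → Prop) : ∃ S < 2 ^ m, ∀ j < m, (S.testBit j = true ↔ P j) := by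
  classical
  refine ⟨Nat.ofBits (fun i : Fin m => decide (P i)), Nat.ofBits_lt_two_pow _, fun j hj => ?_⟩
  rw [Nat.testBit_ofBits_lt _ _ hj]; simp

theorem paint_sound {ι : E → ℕ} {m : ℕ} (hm : m ≤ 11) (hlt : ∀ x, ι x < m)
    (hinj : Function.Injective ι) {mk : List (ℕ × ℕ × ℕ)} (hmk : MkSpec mk)
    (hall : ∀ i < m, ∃ t ∈ mk, t.1 = i) {Cs Ds : List ℕ}
    (h : paintCheck mk (2 ^ (2 ^ m) - 1) (famC Cs) (famD (2 ^ m - 1) Ds) = true)
    (e : E) (A : Set E) :
    (∃ C ∈ fam ι Cs, C e ≠ 0 ∧ ∀ x, x ≠ e → x ∉ A → C x = 0) ∨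
    (∃ D ∈ fam ι Ds, D e ≠ 0 ∧ ∀ x, x ≠ e → x ∈ A → D x = 0) := by
  obtain ⟨S, hS, hSb⟩ := exists_mask m (fun j => j = ι e ∨ ∃ x ∈ A, ι x = j)
  obtain ⟨t, ht, hte⟩ := hall _ (hlt e)
  have h1 := List.all_eq_true.1 h t ht
  rw [Nat.beq_eq] at h1
  have h2 := sub_of_and h1 (j := S) (by rw [Nat.testBit_two_pow_sub_one]; simpa using hS)
  change ((up mk (famC Cs ^^^ (famC Cs &&& t.2.2)) |||
    down mk ((famD (2 ^ m - 1) Ds &&& t.2.2) <<< t.2.1)) ||| t.2.2).testBit S = true at h2
  simp only [Nat.testBit_or, Bool.or_eq_true] at h2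
  have h11 : ∀ x, ι x < 11 := fun x => lt_of_lt_of_le (hlt x) hm
  rcases h2 with (h2 | h2) | h2
  · left
    obtain ⟨r, hr, hse, hsub⟩ := up_inv hmk
      (fun S => ∃ r ∈ Cs, (sp r).testBit (ι e) = true ∧
        ∀ j, (sp r).testBit j = true → S.testBit j = true)
      (by rintro T S ⟨s, a, b, c⟩ d; exact ⟨s, a, b, fun j hj => d j (c j hj)⟩) _
      (by
        intro S hS
        rw [Nat.testBit_xor, Nat.testBit_and] at hS
        have a1 : (famC Cs).testBit S = true ∧ t.2.2.testBit S = false := by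
          revert hS; cases (famC Cs).testBit S <;> cases t.2.2.testBit S <;> simp
        obtain ⟨r, hr, rfl⟩ := famC_spec _ _ a1.1
        exact ⟨r, hr, hte ▸ (hmk t ht).2.2 _ (sp_lt r) a1.2, fun _ a => a⟩) S h2
    refine ⟨sv ι r, ⟨r, hr, Or.inl rfl⟩, (sp_testBit ι r e (h11 e)).1 hse, fun x hx hxA => ?_⟩
    by_contra hne
    rcases (hSb _ (hlt x)).1 (hsub _ ((sp_testBit ι r x (h11 x)).2 hne)) with h3 | ⟨y, hy, h3⟩
    · exact hx (hinj h3)
    · exact hxA (hinj h3 ▸ hy)
  · right
    obtain ⟨r, hr, hse, hsub⟩ := down_inv hmk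
      (fun S => ∃ r ∈ Ds, (sp r).testBit (ι e) = true ∧
        ∀ j < m, S.testBit j = true → (sp r).testBit j = true → j = ι e)
      (by rintro T S ⟨s, a, b, c⟩ d; exact ⟨s, a, b, fun j hj h3 => c j hj (d j h3)⟩) _
      (by
        intro S hS
        simp only [Nat.testBit_shiftLeft, Nat.testBit_and, Bool.and_eq_true,
          decide_eq_true_eq] at hS
        obtain ⟨a1, a2, a3⟩ := hS
        obtain ⟨r, hr, a4⟩ := famD_spec _ _ _ a2
        obtain ⟨a5, a6⟩ := (hmk t ht).2.1 _ a3
        rw [Nat.sub_add_cancel a1] at a5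
        rw [a4, hte] at a6
        simp only [Nat.testBit_xor, Nat.testBit_two_pow_sub_one, hlt e, decide_true,
          Bool.true_xor, Bool.not_eq_false'] at a6
        refine ⟨r, hr, a6, fun j hj h3 h4 => ?_⟩
        rw [a5, a4, (hmk t ht).1, hte] at h3
        simp only [Nat.testBit_or, Nat.testBit_xor, Nat.testBit_two_pow_sub_one, h4,
          Nat.testBit_two_pow, hj, decide_true, Bool.xor_self, Bool.false_or,
          decide_eq_true_eq] at h3
        exact h3.symm) S h2
    refine ⟨sv ι r, ⟨r, hr, Or.inl rfl⟩, (sp_testBit ι r e (h11 e)).1 hse, fun x hx hxA => ?_⟩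
    by_contra hne
    exact hx (hinj (hsub _ (hlt x) ((hSb _ (hlt x)).2 (Or.inr ⟨x, hxA, rfl⟩))
      ((sp_testBit ι r x (h11 x)).2 hne)))
  · have := ((hmk t ht).2.1 S h2).2
    rw [hte, (hSb _ (hlt e)).2 (Or.inl rfl)] at this
    exact absurd this (by simp)

theorem fam_neg {ι : E → ℕ} {l : List ℕ} : ∀ C ∈ fam ι l, -C ∈ fam ι l := by
  rintro _ ⟨r, hr, rfl | rfl⟩
  · exact ⟨r, hr, Or.inr rfl⟩
  · exact ⟨r, hr, Or.inl (neg_neg _)⟩

theorem dualPair_of_check {ι : E → ℕ} {m : ℕ} (hm : m ≤ 11) (hlt : ∀ x, ι x < m)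
    (hinj : Function.Injective ι) {mk : List (ℕ × ℕ × ℕ)} (hmk : MkSpec mk)
    (hall : ∀ i < m, ∃ t ∈ mk, t.1 = i) {Cs Ds : List ℕ}
    (h0 : ∀ c ∈ Cs, ∀ d ∈ Ds, Orth (sv ι c) (sv ι d))
    (h : paintCheck mk (2 ^ (2 ^ m) - 1) (famC Cs) (famD (2 ^ m - 1) Ds) = true) :
    DualPair (fam ι Cs) (fam ι Ds) where
  negC := fam_neg
  negD := fam_neg
  orth := by
    rintro _ ⟨c, hc, rfl | rfl⟩ _ ⟨d, hd, rfl | rfl⟩
    · exact h0 c hc d hd
    · exact orth_neg_right (h0 c hc d hd)
    · exact orth_neg_left (h0 c hc d hd)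
    · exact orth_neg_left (orth_neg_right (h0 c hc d hd))
  paint := paint_sound hm hlt hinj hmk hall h

def packF (F : ℕ → ℕ) : List ℕ → ℕ
  | [] => 0
  | x :: l => Nat.add (F x) (Nat.mul 8388608 (packF F l))

theorem packF_cons (F : ℕ → ℕ) (x : ℕ) (l : List ℕ) :
    packF F (x :: l) = 2 ^ 23 * packF F l + F x := by
  change F x + 8388608 * packF F l = _
  norm_num [Nat.add_comm]

theorem packF_mul (c : ℕ) (l : List ℕ) :
    Nat.mul c (packF (fun _ => 1) l) = packF (fun _ => c) l := by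
  induction l with
  | nil => rfl
  | cons x l ih =>
    rw [packF_cons, packF_cons, ← ih]
    simp only [Nat.mul_eq]; ring

theorem packF_add (F G : ℕ → ℕ) (l : List ℕ) :
    Nat.add (packF F l) (packF G l) = packF (fun x => F x + G x) l := by
  induction l with
  | nil => rfl
  | cons x l ih =>
    rw [packF_cons, packF_cons, packF_cons, ← ih]
    simp only [Nat.add_eq]; ring

theorem packF_land (F G : ℕ → ℕ) (l : List ℕ) (hF : ∀ x ∈ l, F x < 2 ^ 23)
    (hG : ∀ x ∈ l, G x < 2 ^ 23) :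
    Nat.land (packF F l) (packF G l) = packF (fun x => F x &&& G x) l := by
  induction l with
  | nil => simp [packF]
  | cons x l ih =>
    rw [packF_cons, packF_cons, packF_cons,
      ← ih (fun y hy => hF y (by simp [hy])) (fun y hy => hG y (by simp [hy]))]
    have a1 := hF x (by simp)
    have a2 := hG x (by simp)
    have a3 : F x &&& G x < 2 ^ 23 := lt_of_le_of_lt Nat.and_le_left a1
    apply Nat.eq_of_testBit_eq
    intro j
    simp only [Nat.land_eq, Nat.testBit_and, Nat.testBit_two_pow_mul_add _ a1,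
      Nat.testBit_two_pow_mul_add _ a2, Nat.testBit_two_pow_mul_add _ a3]
    split_ifs <;> rfl

theorem packF_inj (F G : ℕ → ℕ) (l : List ℕ) (hF : ∀ x ∈ l, F x < 2 ^ 23)
    (hG : ∀ x ∈ l, G x < 2 ^ 23) (h : packF F l = packF G l) : ∀ x ∈ l, F x = G x := by
  induction l with
  | nil => simp
  | cons x l ih =>
    rw [packF_cons, packF_cons] at h
    have a1 := hF x (by simp)
    have a2 := hG x (by simp)
    have h1 : packF F l = packF G l ∧ F x = G x := by omega
    intro y hy
    rcases List.mem_cons.1 hy with rfl | hy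
    · exact h1.2
    · exact ih (fun y hy => hF y (by simp [hy])) (fun y hy => hG y (by simp [hy])) h1.1 y hy

def sw (c : ℕ) : ℕ := Nat.lor (Nat.shiftRight c 11) (Nat.shiftLeft (Nat.mod c 2048) 11)

def clean (r : ℕ) : Bool := Nat.blt r 4194304 && Nat.beq (Nat.land r (Nat.shiftRight r 11)) 0

def orthRow (N O K H c : ℕ) : Bool :=
  Nat.beq (Nat.land (Nat.add (Nat.land N (Nat.mul c O)) K) H)
    (Nat.land (Nat.add (Nat.land N (Nat.mul (sw c) O)) K) H)

def orthFast (Cs Ds : List ℕ) : Bool :=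
  Cs.all clean && Ds.all clean &&
    Cs.all (orthRow (packF (fun x => x) Ds) (packF (fun _ => 1) Ds)
      (Nat.mul 4194303 (packF (fun _ => 1) Ds)) (Nat.mul 4194304 (packF (fun _ => 1) Ds)))

theorem guard_bit {y : ℕ} (hy : y < 2 ^ 22) :
    (y + 4194303) &&& 4194304 = if y = 0 then 0 else 4194304 := by
  rw [show (4194304 : ℕ) = 2 ^ 22 from rfl, Nat.and_two_pow]
  split_ifs with h
  · rw [Nat.testBit_lt_two_pow (by omega)]; rfl
  · rw [Nat.testBit_of_two_pow_le_and_two_pow_add_one_gt (by omega) (by omega)]; rfl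

theorem sw_testBit {c : ℕ} (hc : c < 2 ^ 22) (j : ℕ) :
    (sw c).testBit j = if j < 11 then c.testBit (j + 11) else (decide (j < 22) && c.testBit (j - 11)) := by
  change ((c >>> 11) ||| ((c % 2 ^ 11) <<< 11)).testBit j = _
  rw [Nat.testBit_or, Nat.testBit_shiftRight, Nat.testBit_shiftLeft, Nat.testBit_mod_two_pow,
    Nat.add_comm 11]
  split_ifs with h
  · simp [show ¬ (j ≥ 11) by omega]
  · rw [Nat.testBit_lt_two_pow (lt_of_lt_of_le hc
      (Nat.pow_le_pow_right (by norm_num) (by omega)))]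
    simp only [Bool.false_or, show j ≥ 11 by omega, decide_true, Bool.true_and]
    congr 1
    rw [decide_eq_decide]; omega

theorem sw_lt {c : ℕ} (hc : c < 2 ^ 22) : sw c < 2 ^ 22 := by
  apply Nat.lt_pow_two_of_testBit
  intro j hj
  rw [sw_testBit hc]
  simp [show ¬ j < 11 by omega, show ¬ j < 22 by omega]

theorem orthRow_sound {Ds : List ℕ} (hD : ∀ d ∈ Ds, d < 2 ^ 22) {c : ℕ} (hc : c < 2 ^ 22)
    (h : orthRow (packF (fun x => x) Ds) (packF (fun _ => 1) Ds)
      (Nat.mul 4194303 (packF (fun _ => 1) Ds)) (Nat.mul 4194304 (packF (fun _ => 1) Ds)) c = true) :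
    ∀ d ∈ Ds, (d &&& c = 0 ↔ d &&& sw c = 0) := by
  unfold orthRow at h
  have key : ∀ c', c' < 2 ^ 22 → Nat.land (Nat.add (Nat.land (packF (fun x => x) Ds)
      (Nat.mul c' (packF (fun _ => 1) Ds))) (Nat.mul 4194303 (packF (fun _ => 1) Ds)))
      (Nat.mul 4194304 (packF (fun _ => 1) Ds)) =
      packF (fun x => ((x &&& c') + 4194303) &&& 4194304) Ds := by
    intro c' hc'
    rw [packF_mul, packF_mul, packF_mul,
      packF_land _ _ _ (fun x hx => by have := hD x hx; omega) (fun _ _ => by omega), packF_add,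
      packF_land _ _ _ (fun x hx => by
        have := lt_of_le_of_lt (Nat.and_le_right (n := x)) hc'
        omega) (fun _ _ => by omega)]
  rw [Nat.beq_eq, key c hc, key _ (sw_lt hc)] at h
  intro d hd
  have := packF_inj _ _ _ (fun x _ => lt_of_le_of_lt Nat.and_le_right (by norm_num))
    (fun x _ => lt_of_le_of_lt Nat.and_le_right (by norm_num)) h d hd
  rw [guard_bit (lt_of_le_of_lt Nat.and_le_right hc),
    guard_bit (lt_of_le_of_lt Nat.and_le_right (sw_lt hc))] at this
  split_ifs at this with h1 h2 h2 <;> simp_all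

theorem ne_zero_iff_bit {y : ℕ} (hy : y < 2 ^ 22) :
    y ≠ 0 ↔ ∃ i < 11, y.testBit i = true ∨ y.testBit (i + 11) = true := by
  constructor
  · intro h
    obtain ⟨j, hj⟩ := Nat.exists_testBit_of_ne_zero h
    have h22 : j < 22 := by
      by_contra hc
      rw [Nat.testBit_lt_two_pow (lt_of_lt_of_le hy
        (Nat.pow_le_pow_right (by norm_num) (by omega)))] at hj
      exact absurd hj (by simp)
    by_cases h11 : j < 11
    · exact ⟨j, h11, Or.inl hj⟩
    · exact ⟨j - 11, by omega, Or.inr (by rw [Nat.sub_add_cancel (by omega)]; exact hj)⟩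
  · rintro ⟨i, -, h⟩ rfl
    simp at h

theorem clean_spec {r : ℕ} (h : clean r = true) :
    r < 2 ^ 22 ∧ ∀ i, (r.testBit i && r.testBit (i + 11)) = false := by
  simp only [clean, Bool.and_eq_true, Nat.blt_eq, Nat.beq_eq] at h
  refine ⟨h.1, fun i => ?_⟩
  have := congrArg (fun n => n.testBit i) h.2
  change (r &&& (r >>> 11)).testBit i = Nat.testBit 0 i at this
  rw [Nat.testBit_and, Nat.testBit_shiftRight, Nat.add_comm 11, Nat.zero_testBit] at this
  exact this

theorem orthFast_sound {ι : E → ℕ} (hι : ∀ i, i < 11 ↔ ∃ x, ι x = i) {Cs Ds : List ℕ}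
    (h : orthFast Cs Ds = true) : ∀ c ∈ Cs, ∀ d ∈ Ds, Orth (sv ι c) (sv ι d) := by
  simp only [orthFast, Bool.and_eq_true, List.all_eq_true] at h
  obtain ⟨⟨h1, h2⟩, h3⟩ := h
  intro c hc d hd
  obtain ⟨c1, c2⟩ := clean_spec (h1 c hc)
  obtain ⟨d1, d2⟩ := clean_spec (h2 d hd)
  have key := (orthRow_sound (fun d hd => (clean_spec (h2 d hd)).1) c1 (h3 c hc) d hd).not
  change (d &&& c ≠ 0 ↔ d &&& sw c ≠ 0) at key
  rw [ne_zero_iff_bit (lt_of_le_of_lt Nat.and_le_left d1),
    ne_zero_iff_bit (lt_of_le_of_lt Nat.and_le_left d1)] at key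
  have e1 : (∃ x, sv ι c x * sv ι d x = 1) ↔
      ∃ i < 11, (d &&& c).testBit i = true ∨ (d &&& c).testBit (i + 11) = true := by
    have : ∀ x, sv ι c x * sv ι d x = 1 ↔
        ((d &&& c).testBit (ι x) = true ∨ (d &&& c).testBit (ι x + 11) = true) := by
      intro x
      have a1 := c2 (ι x)
      have a2 := d2 (ι x)
      unfold sv
      rw [Nat.testBit_and, Nat.testBit_and]
      revert a1 a2
      cases c.testBit (ι x) <;> cases c.testBit (ι x + 11) <;> cases d.testBit (ι x) <;>
        cases d.testBit (ι x + 11) <;> decide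
    simp only [this, hι]
    constructor
    · rintro ⟨x, hx⟩; exact ⟨_, ⟨x, rfl⟩, hx⟩
    · rintro ⟨_, ⟨x, rfl⟩, hx⟩; exact ⟨x, hx⟩
  have e2 : (∃ x, sv ι c x * sv ι d x = -1) ↔
      ∃ i < 11, (d &&& sw c).testBit i = true ∨ (d &&& sw c).testBit (i + 11) = true := by
    have : ∀ x, sv ι c x * sv ι d x = -1 ↔
        ((d &&& sw c).testBit (ι x) = true ∨ (d &&& sw c).testBit (ι x + 11) = true) := by
      intro x
      have a1 := c2 (ι x)
      have a2 := d2 (ι x)
      have a3 : ι x < 11 := (hι _).2 ⟨x, rfl⟩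
      unfold sv
      rw [Nat.testBit_and, Nat.testBit_and, sw_testBit c1, sw_testBit c1, if_pos a3,
        if_neg (show ¬ ι x + 11 < 11 by omega), decide_eq_true (show ι x + 11 < 22 by omega),
        Bool.true_and,
        Nat.add_sub_cancel]
      revert a1 a2
      cases c.testBit (ι x) <;> cases c.testBit (ι x + 11) <;> cases d.testBit (ι x) <;>
        cases d.testBit (ι x + 11) <;> decide
    simp only [this, hι]
    constructor
    · rintro ⟨x, hx⟩; exact ⟨_, ⟨x, rfl⟩, hx⟩
    · rintro ⟨_, ⟨x, rfl⟩, hx⟩; exact ⟨x, hx⟩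
  unfold Orth
  rw [e1, e2]; exact key

def is10 : List ℕ := [0, 1, 2, 3, 4, 5, 6, 7, 8, 9]
def ι10 : Fin 10 → ℕ := Fin.val
def ι11 : Option (Fin 10) → ℕ := fun x => x.elim 10 Fin.val

theorem hι10 : ∀ i, i ∈ is10 ↔ ∃ x, ι10 x = i := by
  intro i
  constructor
  · revert i; decide
  · rintro ⟨x, rfl⟩; revert x; decide

theorem hι11 : ∀ i, i < 11 ↔ ∃ x, ι11 x = i := by
  intro i
  constructor
  · revert i; decide
  · rintro ⟨x, rfl⟩; revert x; decide

theorem dualO : DualPair (fam ι10 Clist) (fam ι10 Dlist) :=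
  dualPair_of_check (m := 10) (by norm_num) (by decide) (by decide) (mk := mk11.take 10)
    (fun t ht => mk11_spec t (List.mem_of_mem_take ht)) (by decide +kernel)
    (fun c hc d hd => (orth1_iff hι10 Clist d).1 (List.all_eq_true.1
      (show Dlist.all (orth1 (cols is10 Clist)) = true by decide +kernel) d hd) _
      ⟨c, hc, Or.inl rfl⟩) (by decide +kernel)

/-- The example. -/
def exO : OM (Fin 10) := dualO.om

def unpack : ℕ → ℕ → List ℕ
  | 0, _ => []
  | k + 1, N => (Nat.land N 4194303) :: unpack k (Nat.shiftRight N 22)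

def checkExt' (g f d : ℕ) (Cn D' : List ℕ) : Bool :=
  orthFast (Cn ++ Clist) (d :: D') &&
  paintCheck mk11 (2 ^ (2 ^ 11) - 1) (famC (Cn ++ Clist)) (famD (2 ^ 11 - 1) D') &&
  Cn.all (fun r => (sp r).testBit 10) &&
  Cn.any (fun r => Nat.beq (sp r) (2 ^ g ||| 2 ^ f ||| 2 ^ 10)) &&
  D'.any (fun r => (sp r).testBit 10 && !(sp r).testBit g) &&
  D'.any (fun r => (sp r).testBit 10 && !(sp r).testBit f)

def checkExt (g f d : ℕ) (x : ℕ × ℕ × ℕ × ℕ) : Bool :=
  checkExt' g f d (unpack x.1 x.2.1) (unpack x.2.2.1 x.2.2.2)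

def Good (g f : Fin 10) (d : ℕ) : Prop :=
  ∃ O' : OM (Option (Fin 10)), exO.IsExtension O' ∧ none ∈ O'.closure {some g, some f} ∧
    none ∉ O'.closure {some g} ∧ none ∉ O'.closure {some f} ∧ sv ι11 d ∈ O'.L

theorem sv_lift {r : ℕ} (h : (sp r).testBit 10 = false) :
    (fun x : Option (Fin 10) => x.elim 0 (sv ι10 r)) = sv ι11 r := by
  funext x
  cases x with
  | none =>
    by_contra hne
    have := (sp_testBit ι11 r none (by decide)).2 (fun h0 => hne h0.symm)
    rw [show ι11 none = 10 from rfl, h] at this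
    exact absurd this (by simp)
  | some e => rfl

theorem elim_neg (X : Fin 10 → SignType) :
    (fun x : Option (Fin 10) => x.elim 0 (-X)) = -(fun x : Option (Fin 10) => x.elim 0 X) := by
  funext x; cases x <;> simp

theorem Clist_ten : ∀ r ∈ Clist, (sp r).testBit 10 = false := by decide +kernel
theorem Dlist_ten : ∀ r ∈ Dlist, (sp r).testBit 10 = false := by decide +kernel

theorem checkExt'_sound (g f : Fin 10) (d : ℕ) (Cn D' : List ℕ)
    (h : checkExt' g f d Cn D' = true) : Good g f d := by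
  simp only [checkExt', Bool.and_eq_true] at h
  obtain ⟨⟨⟨⟨⟨h1, h3⟩, h4⟩, h5⟩, h6⟩, h7⟩ := h
  have h2 := orthFast_sound hι11 h1
  have h11 : ∀ x, ι11 x < 11 := by decide
  have hd : DualPair (fam ι11 (Cn ++ Clist)) (fam ι11 D') :=
    dualPair_of_check (m := 11) le_rfl h11 (by decide) mk11_spec (by decide +kernel)
      (fun c hc d hd => h2 c hc d (by simp [hd])) h3
  have hnot : ∀ g : Fin 10, D'.any (fun r => (sp r).testBit 10 && !(sp r).testBit g) = true →
      none ∉ hd.om.closure {some g} := by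
    intro g hg
    obtain ⟨r, hr, h8⟩ := List.any_eq_true.1 hg
    simp only [Bool.and_eq_true, Bool.not_eq_true'] at h8
    refine not_mem_closure_of (D := sv ι11 r) (hd.mem_perp ⟨r, hr, Or.inl rfl⟩)
      ((sp_testBit ι11 r none (by decide)).1 h8.1) ?_
    rintro _ rfl
    by_contra hne
    have := (sp_testBit ι11 r (some g) (h11 _)).2 hne
    rw [show ι11 (some g) = g from rfl, h8.2] at this
    exact absurd this (by simp)
  refine ⟨hd.om, dualO.isExtension hd ?_ ?_, ?_, hnot g h6, hnot f h7, ?_⟩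
  rotate_left 3
  · rintro _ ⟨c, hc, rfl | rfl⟩
    · exact h2 c hc d (by simp)
    · exact orth_neg_left (h2 c hc d (by simp))
  · rintro _ ⟨r, hr, rfl | rfl⟩
    · exact ⟨r, by simp [hr], Or.inl (sv_lift (Clist_ten r hr))⟩
    · exact ⟨r, by simp [hr], Or.inr (by rw [elim_neg, sv_lift (Clist_ten r hr)])⟩
  · rintro _ ⟨r, hr, hC⟩ h0
    rcases List.mem_append.1 hr with hr | hr
    · exfalso
      have := (sp_testBit ι11 r none (by decide)).1 (List.all_eq_true.1 h4 r hr)
      rcases hC with rfl | rfl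
      · exact this h0
      · exact this (by simpa using h0)
    · rcases hC with rfl | rfl
      · exact ⟨r, hr, Or.inl rfl⟩
      · exact ⟨r, hr, Or.inr rfl⟩
  · obtain ⟨r, hr, h8⟩ := List.any_eq_true.1 h5
    rw [Nat.beq_eq] at h8
    refine mem_closure_of (O := hd.om) (C := sv ι11 r)
      (fun X hX => hX _ ⟨r, by simp [hr], Or.inl rfl⟩) ?_ ?_
    · exact (sp_testBit ι11 r none (by decide)).1 (List.all_eq_true.1 h4 r hr)
    · intro x hx hxA
      by_contra hne
      have := (sp_testBit ι11 r x (h11 x)).2 hne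
      rw [h8] at this
      simp only [Nat.testBit_or, Nat.testBit_two_pow, Bool.or_eq_true, decide_eq_true_eq] at this
      cases x with
      | none => exact hx rfl
      | some y =>
        have hy : ι11 (some y) = y := rfl
        rw [hy] at this
        have := y.2
        apply hxA
        simp only [Set.mem_insert_iff, Set.mem_singleton_iff, Option.some.injEq, Fin.ext_iff]
        omega

def checkList (g f : ℕ) : List ℕ → List (ℕ × ℕ × ℕ × ℕ) → Bool
  | [], _ => true
  | d :: ds, xs => cond ((sp d).testBit g && (sp d).testBit f)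
      (match xs with
        | [] => false
        | x :: xs' => checkExt g f d x && checkList g f ds xs')
      (checkList g f ds xs)

def GoodOn (g f : Fin 10) (ds : List ℕ) : Prop :=
  ∀ d ∈ ds, (sp d).testBit g = true → (sp d).testBit f = true → Good g f d

theorem checkList_sound (g f : Fin 10) (ds : List ℕ) : ∀ xs, checkList g f ds xs = true →
    GoodOn g f ds := by
  induction ds with
  | nil => intro _ _ d hd; simp at hd
  | cons d ds ih =>
    intro xs h d' hd' h1 h2
    unfold checkList at h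
    cases hc : ((sp d).testBit g && (sp d).testBit f)
    · rw [hc] at h
      rcases List.mem_cons.1 hd' with rfl | hd'
      · rw [h1, h2] at hc; exact absurd hc (by simp)
      · exact ih xs h d' hd' h1 h2
    · rw [hc] at h
      cases xs with
      | nil => exact absurd h (by simp)
      | cons x xs =>
        simp only [cond_true, Bool.and_eq_true] at h
        rcases List.mem_cons.1 hd' with rfl | hd'
        · exact checkExt'_sound g f _ _ _ h.1
        · exact ih xs h.2 d' hd' h1 h2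

end Pool.Agent.P.MP_c821f2_co
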