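import Mathlib

/-!
Oriented matroids by their covector axioms (Bjorner, Las Vergnas, Sturmfels, White, Ziegler,
Oriented Matroids, 4.1.1), with the notions used in problem MP_c821f2_co.
-/

namespace Pool.Agent.P.MP_c821f2_co

variable {E : Type}

/-- Composition `X ∘ Y` of sign vectors. -/
def comp (X Y : E → SignType) : E → SignType := fun e => if X e = 0 then Y e else X e

/-- `e` lies in the separation set `S(X, Y)`: the entries are non-zero and opposite. -/
def Sep (X Y : E → SignType) (e : E) : Prop := X e ≠ 0 ∧ Y e = -X e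

/-- An oriented matroid on `E`, given by its set `L` of covectors with the axioms (L0)-(L3). -/
structure OM (E : Type) where
  L : Set (E → SignType)
  zero_mem : (0 : E → SignType) ∈ L
  neg_mem : ∀ X ∈ L, -X ∈ L
  comp_mem : ∀ X ∈ L, ∀ Y ∈ L, comp X Y ∈ L
  elim : ∀ X ∈ L, ∀ Y ∈ L, ∀ e, Sep X Y e →
    ∃ Z ∈ L, Z e = 0 ∧ ∀ f, ¬ Sep X Y f → Z f = comp X Y f

namespace OM

variable (O : OM E)

/-- Closure in the underlying matroid, whose flats are the zero sets of covectors: the flat
spanned by `A`. -/
def closure (A : Set E) : Set E := {e | ∀ X ∈ O.L, (∀ a ∈ A, X a = 0) → X e = 0}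

/-- Independent sets of the underlying matroid. -/
def Indep (I : Set E) : Prop := ∀ e ∈ I, e ∉ O.closure (I \ {e})

/-- The rank is `r`: the largest size of an independent set is `r`. -/
def HasRank (r : ℕ) : Prop := IsGreatest {k | ∃ I : Finset E, O.Indep I ∧ I.card = k} r

/-- No loops and no parallel or antiparallel pairs. -/
def Simple : Prop := (∀ e, e ∉ O.closure ∅) ∧ ∀ e f, e ≠ f → e ∉ O.closure {f}

/-- Circuits of the underlying matroid: minimal dependent sets. -/
def IsCircuit (K : Set E) : Prop := ¬ O.Indep K ∧ ∀ J, J ⊂ K → O.Indep J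

/-- The underlying matroid is connected: any two elements lie in a common circuit. -/
def Connected : Prop := ∀ e f, e ≠ f → ∃ K, O.IsCircuit K ∧ e ∈ K ∧ f ∈ K

/-- Topes: the maximal covectors in the conformal order. -/
def IsTope (T : E → SignType) : Prop :=
  T ∈ O.L ∧ ∀ X ∈ O.L, (∀ e, T e ≠ 0 → X e = T e) → X = T

/-- Cocircuits: the non-zero covectors of inclusion-minimal support. -/
def IsCocircuit (Y : E → SignType) : Prop :=
  Y ∈ O.L ∧ Y ≠ 0 ∧ ∀ X ∈ O.L, X ≠ 0 → Function.support X ⊆ Function.support Y →
    Function.support X = Function.support Y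

/-- The elements `e` such that reversing the sign of `T` at `e` gives another tope. -/
def walls [DecidableEq E] (T : E → SignType) : Set E :=
  {e | T e ≠ 0 ∧ O.IsTope (Function.update T e (-T e))}

/-- A simplicial tope of an oriented matroid of rank `r`: a tope with exactly `r` walls. -/
def IsSimplicial [DecidableEq E] (r : ℕ) (T : E → SignType) : Prop :=
  O.IsTope T ∧ (O.walls T).ncard = r

/-- The mutations (antipodal pairs `{T, -T}` of simplicial topes) adjacent to `e`. -/
def mutationsAdj [DecidableEq E] (r : ℕ) (e : E) : Set (Set (E → SignType)) :=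
  {m | ∃ T, O.IsSimplicial r T ∧ e ∈ O.walls T ∧ m = {T, -T}}

/-- `O'`, on the ground set `E ∪ {p}` with `p = none`, extends `O`: deleting `p` gives `O`. -/
def IsExtension (O' : OM (Option E)) : Prop :=
  ∀ X, X ∈ O.L ↔ ∃ X' ∈ O'.L, (fun e => X' (some e)) = X

/-- The program `(O, g, f)` is Euclidean: every cocircuit `Y` with `Y g = +` extends, with entry
`0` at `p`, to a cocircuit of a single-element extension `O ∪ p` in which `p` lies in the flat
spanned by `g, f` but not in the flat spanned by `g` (so `p` is not a loop and not parallel or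
antiparallel to `g`). -/
def EuclideanProgram (g f : E) : Prop :=
  ∀ Y, O.IsCocircuit Y → Y g = 1 →
    ∃ O' : OM (Option E), O.IsExtension O' ∧
      none ∈ O'.closure {some g, some f} ∧ none ∉ O'.closure {some g} ∧
      O'.IsCocircuit (fun x => x.elim 0 Y)

/-- All programs `(O, g, f)` with `g ≠ f` are Euclidean. -/
def Euclidean : Prop := ∀ g f, g ≠ f → O.EuclideanProgram g f

end OM

end Pool.Agent.P.MP_c821f2_co
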