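import Pool.Agent.P.MP_c821f2_co.Ext00
import Pool.Agent.P.MP_c821f2_co.Ext01
import Pool.Agent.P.MP_c821f2_co.Ext02
import Pool.Agent.P.MP_c821f2_co.Ext03
import Pool.Agent.P.MP_c821f2_co.Ext04
import Pool.Agent.P.MP_c821f2_co.Ext05
import Pool.Agent.P.MP_c821f2_co.Ext06
import Pool.Agent.P.MP_c821f2_co.Ext07
import Pool.Agent.P.MP_c821f2_co.Ext08

namespace Pool.Agent.P.MP_c821f2_co

theorem good_all (g f : Fin 10) (h : g < f) : GoodOn g f Dlist := by
  fin_cases g <;> fin_cases f <;> simp only [Fin.lt_def] at h <;> try omega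
  · exact good_0_1
  · exact good_0_2
  · exact good_0_3
  · exact good_0_4
  · exact good_0_5
  · exact good_0_6
  · exact good_0_7
  · exact good_0_8
  · exact good_0_9
  · exact good_1_2
  · exact good_1_3
  · exact good_1_4
  · exact good_1_5
  · exact good_1_6
  · exact good_1_7
  · exact good_1_8
  · exact good_1_9
  · exact good_2_3
  · exact good_2_4
  · exact good_2_5
  · exact good_2_6
  · exact good_2_7
  · exact good_2_8
  · exact good_2_9
  · exact good_3_4
  · exact good_3_5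
  · exact good_3_6
  · exact good_3_7
  · exact good_3_8
  · exact good_3_9
  · exact good_4_5
  · exact good_4_6
  · exact good_4_7
  · exact good_4_8
  · exact good_4_9
  · exact good_5_6
  · exact good_5_7
  · exact good_5_8
  · exact good_5_9
  · exact good_6_7
  · exact good_6_8
  · exact good_6_9
  · exact good_7_8
  · exact good_7_9
  · exact good_8_9

theorem h10 : ∀ x, ι10 x < 11 := by decide

theorem svD_mem {d : ℕ} (hd : d ∈ Dlist) : sv ι10 d ∈ exO.L :=
  dualO.mem_perp ⟨d, hd, Or.inl rfl⟩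

theorem svC_orth {c : ℕ} (hc : c ∈ Clist) : ∀ X ∈ exO.L, Orth (sv ι10 c) X :=
  fun _ hX => hX _ ⟨c, hc, Or.inl rfl⟩

theorem sv_zero {r : ℕ} {x : Fin 10} (h : (sp r).testBit x = false) : sv ι10 r x = 0 := by
  by_contra hne
  have := (sp_testBit ι10 r x (h10 x)).2 hne
  rw [show ι10 x = x from rfl, h] at this
  exact absurd this (by simp)

theorem sv_ne {r : ℕ} {x : Fin 10} (h : (sp r).testBit x = true) : sv ι10 r x ≠ 0 :=
  (sp_testBit ι10 r x (h10 x)).1 h

theorem simple_aux : ∀ e f : Fin 10, e ≠ f →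
    ∃ d ∈ Dlist, (sp d).testBit e = true ∧ (sp d).testBit f = false := by decide +kernel

theorem exO_simple : exO.Simple := by
  have h : ∀ e f : Fin 10, e ≠ f → e ∉ exO.closure {f} := by
    intro e f hef
    obtain ⟨d, hd, h1, h2⟩ := simple_aux e f hef
    exact not_mem_closure_of (svD_mem hd) (sv_ne h1) (by rintro _ rfl; exact sv_zero h2)
  refine ⟨fun e he => ?_, h⟩
  obtain ⟨f, hf⟩ := exists_ne e
  exact h e f hf.symm (fun X hX _ => he X hX (by simp))

theorem exO_euclidean : exO.Euclidean := by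
  intro g f hgf Y hY hg
  by_cases hf : Y f = 0
  · exact parallel_case (exO_simple.2 f g hgf.symm) hY hf
  obtain ⟨d, hd, hYd⟩ := dualO.cocircuit_mem hY
  have hg' : Y g ≠ 0 := by rw [hg]; decide
  have hb : ∀ x, Y x ≠ 0 → (sp d).testBit x = true := by
    intro x hx
    apply (sp_testBit ι10 d x (h10 x)).2
    rcases hYd with rfl | rfl
    · exact hx
    · simpa using hx
  have hL : ∀ O' : OM (Option (Fin 10)), sv ι11 d ∈ O'.L →
      (fun x : Option (Fin 10) => x.elim 0 Y) ∈ O'.L := by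
    intro O' h
    rcases hYd with rfl | rfl
    · rw [sv_lift (Dlist_ten d hd)]; exact h
    · rw [elim_neg, sv_lift (Dlist_ten d hd)]; exact O'.neg_mem _ h
  rcases lt_or_gt_of_ne hgf with h | h
  · obtain ⟨O', a1, a2, a3, -, a5⟩ := good_all g f h d hd (hb g hg') (hb f hf)
    exact ⟨O', a1, a2, a3, cocircuit_lift a1 hY (hL O' a5)⟩
  · obtain ⟨O', a1, a2, -, a3, a5⟩ := good_all f g h d hd (hb f hf) (hb g hg')
    exact ⟨O', a1, by rw [Set.pair_comm]; exact a2, a3, cocircuit_lift a1 hY (hL O' a5)⟩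

theorem dep_of {c : ℕ} (hc : c ∈ Clist) {K : Set (Fin 10)} {e : Fin 10}
    (he : (sp c).testBit e = true) (hK : ∀ x : Fin 10, (sp c).testBit x = true → x ∈ K) :
    ¬ exO.Indep K := by
  intro h
  refine h e (hK e he) (mem_closure_of (svC_orth hc) (sv_ne he) fun x hx hxA => ?_)
  by_contra hne
  exact hxA ⟨hK x ((sp_testBit ι10 c x (h10 x)).2 hne), hx⟩

theorem rank_aux1 : ∀ e : Fin 10, 3 ≤ e → ∃ d ∈ Dlist, (sp d).testBit e = true ∧
    ∀ x : Fin 10, 3 ≤ x → x ≠ e → (sp d).testBit x = false := by decide +kernel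

theorem rank_aux2 : ∀ a b : Fin 10, ∃ c ∈ Clist, (sp c).testBit a = false ∧
    (sp c).testBit b = false ∧ ∃ e : Fin 10, (sp c).testBit e = true := by decide +kernel

theorem exO_rank : exO.HasRank 7 := by
  constructor
  · refine ⟨Finset.univ.filter (3 ≤ ·), ?_, by decide⟩
    intro e he
    obtain ⟨d, hd, h1, h2⟩ := rank_aux1 e (by simpa using he)
    refine not_mem_closure_of (svD_mem hd) (sv_ne h1) ?_
    rintro x ⟨hx, hxe⟩
    exact sv_zero (h2 x (by simpa using hx) hxe)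
  · rintro k ⟨I, hI, rfl⟩
    by_contra hc
    have hcard : Iᶜ.card ≤ 2 := by
      rw [Finset.card_compl, Fintype.card_fin]; omega
    obtain ⟨a, b, hab⟩ : ∃ a b : Fin 10, ∀ x, x ∉ I → x = a ∨ x = b := by
      rcases Nat.le_succ_iff.1 hcard with h | h
      · obtain ⟨a, ha⟩ := Finset.card_le_one_iff_subset_singleton.1 h
        exact ⟨a, a, fun x hx => Or.inl (by simpa using ha (Finset.mem_compl.2 hx))⟩
      · obtain ⟨a, b, -, hab⟩ := Finset.card_eq_two.1 h
        exact ⟨a, b, fun x hx => by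
          have := Finset.mem_compl.2 hx
          rw [hab] at this; simpa using this⟩
    obtain ⟨c, hc, h1, h2, e, he⟩ := rank_aux2 a b
    refine dep_of hc he (fun x hx => ?_) hI
    by_contra hn
    rcases hab x hn with rfl | rfl
    · rw [h1] at hx; exact absurd hx (by simp)
    · rw [h2] at hx; exact absurd hx (by simp)

theorem circ_of (a b : Fin 10)
    (h1 : ∃ c ∈ Clist, (∃ e : Fin 10, (sp c).testBit e = true) ∧
      (sp c).testBit a = false ∧ (sp c).testBit b = false)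
    (h2 : ∀ e x : Fin 10, e ≠ a → e ≠ b → x ≠ a → x ≠ b → e ≠ x → ∃ d ∈ Dlist,
      (sp d).testBit e = true ∧
        ∀ y : Fin 10, y ≠ a → y ≠ b → y ≠ e → y ≠ x → (sp d).testBit y = false) :
    exO.IsCircuit {x | x ≠ a ∧ x ≠ b} := by
  constructor
  · obtain ⟨c, hc, ⟨e, he⟩, h3, h4⟩ := h1
    refine dep_of hc he fun x hx => ⟨?_, ?_⟩
    · rintro rfl; rw [h3] at hx; exact absurd hx (by simp)
    · rintro rfl; rw [h4] at hx; exact absurd hx (by simp)
  · intro J hJ e he
    obtain ⟨x, hx, hxJ⟩ := Set.exists_of_ssubset hJ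
    have he' := hJ.1 he
    obtain ⟨d, hd, h3, h4⟩ := h2 e x he'.1 he'.2 hx.1 hx.2 (by rintro rfl; exact hxJ he)
    refine not_mem_closure_of (svD_mem hd) (sv_ne h3) ?_
    rintro y ⟨hy, hye⟩
    exact sv_zero (h4 y (hJ.1 hy).1 (hJ.1 hy).2 hye (by rintro rfl; exact hxJ hy))

theorem exO_connected : exO.Connected := by
  have c1 := circ_of 0 1 (by decide +kernel) (by decide +kernel)
  have c2 := circ_of 2 4 (by decide +kernel) (by decide +kernel)
  have c3 := circ_of 5 7 (by decide +kernel) (by decide +kernel)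
  intro e f _
  have : ∀ e f : Fin 10, ((e ≠ 0 ∧ e ≠ 1) ∧ (f ≠ 0 ∧ f ≠ 1)) ∨
      ((e ≠ 2 ∧ e ≠ 4) ∧ (f ≠ 2 ∧ f ≠ 4)) ∨ ((e ≠ 5 ∧ e ≠ 7) ∧ (f ≠ 5 ∧ f ≠ 7)) := by decide
  rcases this e f with h | h | h
  · exact ⟨_, c1, h.1, h.2⟩
  · exact ⟨_, c2, h.1, h.2⟩
  · exact ⟨_, c3, h.1, h.2⟩

/-- The sign vector without zeros whose positive part has the mask `P`. -/
def tv (P : ℕ) : Fin 10 → SignType := fun x => if P.testBit x then 1 else -1

def tp (P : ℕ) : Bool := orth1 (cols is10 Clist) (P + 2048 * 1023)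

theorem tv_eq {P : ℕ} (hP : P < 1024) : sv ι10 (P + 2048 * 1023) = tv P := by
  funext x
  unfold sv tv
  have h1 : P < 2 ^ 11 := by omega
  have hx : x.1 < 10 := x.2
  rw [show P + 2048 * 1023 = 2 ^ 11 * (2 ^ 10 - 1) + P by omega,
    Nat.testBit_two_pow_mul_add _ h1, Nat.testBit_two_pow_mul_add _ h1,
    show ι10 x = x.1 from rfl, if_pos (show x.1 < 11 by omega),
    if_neg (show ¬ x.1 + 11 < 11 by omega), Nat.add_sub_cancel, Nat.testBit_two_pow_sub_one]
  simp [hx]

theorem tv_ne (P : ℕ) (x : Fin 10) : tv P x ≠ 0 := by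
  unfold tv; split_ifs <;> decide

theorem tp_iff {P : ℕ} (hP : P < 1024) : tp P = true ↔ tv P ∈ exO.L := by
  unfold tp
  rw [orth1_iff hι10, tv_eq hP]; rfl

theorem tope_iff (T : Fin 10 → SignType) : exO.IsTope T ↔ T ∈ exO.L ∧ ∀ e, T e ≠ 0 :=
  isTope_iff ((tp_iff (P := 27) (by norm_num)).1 (by decide +kernel)) (tv_ne 27) T

theorem tope_tv {P : ℕ} (hP : P < 1024) : exO.IsTope (tv P) ↔ tp P = true := by
  rw [tope_iff, tp_iff hP]
  exact ⟨fun h => h.1, fun h => ⟨h, tv_ne P⟩⟩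

theorem exists_tv {T : Fin 10 → SignType} (h : ∀ e, T e ≠ 0) : ∃ P < 1024, T = tv P := by
  obtain ⟨P, hP, h1⟩ := exists_mask 10 (fun j => ∃ x : Fin 10, x.1 = j ∧ T x = 1)
  refine ⟨P, hP, funext fun x => ?_⟩
  unfold tv
  have h2 := h1 x x.2
  have h3 := h x
  split_ifs with h4
  · obtain ⟨y, hy, h5⟩ := h2.1 h4
    rwa [Fin.ext hy] at h5
  · have : T x ≠ 1 := fun h5 => h4 (h2.2 ⟨x, rfl, h5⟩)
    revert this h3; generalize T x = a; revert a; decide

theorem update_tv (P : ℕ) (e : Fin 10) :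
    Function.update (tv P) e (-tv P e) = tv (P ^^^ 2 ^ e.1) := by
  funext x
  by_cases hx : x = e
  · subst hx
    simp only [Function.update_self, tv, Nat.testBit_xor, Nat.testBit_two_pow, decide_true]
    cases P.testBit x <;> simp
  · rw [Function.update_of_ne hx]
    have : ¬ e.1 = x.1 := fun h => hx (Fin.ext h.symm)
    simp [tv, Nat.testBit_xor, this]

theorem xor_lt {P : ℕ} (hP : P < 1024) (e : Fin 10) : P ^^^ 2 ^ e.1 < 1024 :=
  Nat.xor_lt_two_pow (n := 10) hP (Nat.pow_lt_pow_right (by norm_num) e.2)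

def tpMask : ℕ := 0x4fceefcf5fdfffcfffffffffffffffcfffffffff5f5fff5fffffffff7f7fff4ffffeeeeffffffeeffffefefffffffeeffffffffffffffffffffffeffff7ffe427ffeffff7ffffffffffffffffffffff77fffffff7f7ffff77ffffff7777ffff2fffefefffffffffafffafafffffffff3fffffffffffffff3fffbfaf3f773f20

theorem tpMask_spec : ∀ P < 1024, tp P = tpMask.testBit P := by decide +kernel

theorem walls_tv {P : ℕ} (hP : P < 1024) : exO.walls (tv P) =
    ↑(Finset.univ.filter fun e : Fin 10 => tpMask.testBit (P ^^^ 2 ^ e.1) = true) := by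
  ext e
  simp only [OM.walls, Set.mem_ofPred_eq, update_tv, tope_tv (xor_lt hP e),
    tpMask_spec _ (xor_lt hP e), Finset.coe_filter, Finset.mem_univ, true_and, ne_eq, tv_ne,
    not_false_eq_true]

theorem simplicial_tv {P : ℕ} (hP : P < 1024) :
    (exO.IsSimplicial 7 (tv P) ∧ (0 : Fin 10) ∈ exO.walls (tv P)) ↔
      (tpMask.testBit P = true ∧
        (Finset.univ.filter fun e : Fin 10 => tpMask.testBit (P ^^^ 2 ^ e.1) = true).card = 7) ∧
        tpMask.testBit (P ^^^ 1) = true := by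
  unfold OM.IsSimplicial
  rw [walls_tv hP, Set.ncard_coe_finset, tope_tv hP, tpMask_spec P hP]
  simp

def mutL : List ℕ := [27, 259, 351, 785, 891, 979]

theorem mut_aux : ∀ P < 1024, ((tpMask.testBit P = true ∧
    (Finset.univ.filter fun e : Fin 10 => tpMask.testBit (P ^^^ 2 ^ e.1) = true).card = 7) ∧
      tpMask.testBit (P ^^^ 1) = true) ↔ (P ∈ mutL ∨ 1023 - P ∈ mutL) := by decide +kernel

theorem neg_tv : ∀ P < 1024, -tv P = tv (1023 - P) := by decide +kernel

theorem mut_eq : exO.mutationsAdj 7 0 =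
    (fun P => ({tv P, -tv P} : Set (Fin 10 → SignType))) '' ↑mutL.toFinset := by
  ext m
  constructor
  · rintro ⟨T, h1, h2, rfl⟩
    obtain ⟨P, hP, rfl⟩ := exists_tv ((tope_iff T).1 h1.1).2
    rcases (mut_aux P hP).1 ((simplicial_tv hP).1 ⟨h1, h2⟩) with h | h
    · exact ⟨P, by simpa using h, rfl⟩
    · refine ⟨1023 - P, by simpa using h, ?_⟩
      simp only
      rw [← neg_tv P hP, neg_neg, Set.pair_comm]
  · rintro ⟨P, hP, rfl⟩
    have h : P ∈ mutL := by simpa using hP
    have hlt : P < 1024 := by revert P; decide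
    have := (simplicial_tv hlt).2 ((mut_aux P hlt).2 (Or.inl h))
    exact ⟨tv P, this.1, this.2, rfl⟩

theorem exO_mutations : (exO.mutationsAdj 7 0).ncard = 6 := by
  rw [mut_eq, Set.InjOn.ncard_image, Set.ncard_coe_finset]
  · decide
  · intro P hP Q hQ h
    have hP' : P ∈ mutL := by simpa using hP
    have hQ' : Q ∈ mutL := by simpa using hQ
    have : tv P ∈ ({tv Q, -tv Q} : Set (Fin 10 → SignType)) := by
      simp only at h; rw [← h]; simp
    have key : ∀ P ∈ mutL, ∀ Q ∈ mutL, (tv P = tv Q ∨ tv P = -tv Q) → P = Q := by decide +kernel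
    exact key P hP' Q hQ' (by simpa using this)

end Pool.Agent.P.MP_c821f2_co
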