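import Pool.Agent.P.MP_c821f2_co.Defs

namespace Pool.Agent.P.MP_c821f2_co

variable {E : Type}

/-- Orthogonality of sign vectors. -/
def Orth (X Y : E → SignType) : Prop := (∃ e, X e * Y e = 1) ↔ (∃ e, X e * Y e = -1)

theorem orth_neg_left {X Y : E → SignType} (h : Orth X Y) : Orth (-X) Y := by
  unfold Orth at *
  have h1 : ∀ e, (-X) e * Y e = 1 ↔ X e * Y e = -1 := by
    intro e; simp only [Pi.neg_apply]
    generalize X e = a; generalize Y e = b; revert a b; decide
  have h2 : ∀ e, (-X) e * Y e = -1 ↔ X e * Y e = 1 := by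
    intro e; simp only [Pi.neg_apply]
    generalize X e = a; generalize Y e = b; revert a b; decide
  simp only [h1, h2]; exact h.symm

theorem orth_comm {X Y : E → SignType} (h : Orth X Y) : Orth Y X := by
  unfold Orth at *
  simp only [mul_comm (Y _)]; exact h

theorem orth_neg_right {X Y : E → SignType} (h : Orth X Y) : Orth X (-Y) :=
  orth_comm (orth_neg_left (orth_comm h))

theorem orth_zero (C : E → SignType) : Orth C 0 := by
  unfold Orth; simp

theorem orth_comp {C X Y : E → SignType} (hX : Orth C X) (hY : Orth C Y) :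
    Orth C (comp X Y) := by
  unfold Orth at *
  by_cases h : ∃ e, C e * X e = 1
  · obtain ⟨e, he⟩ := h
    obtain ⟨e', he'⟩ := hX.1 ⟨e, he⟩
    have h1 : X e ≠ 0 := by intro h0; rw [h0] at he; simp at he
    have h2 : X e' ≠ 0 := by intro h0; rw [h0] at he'; simp at he'
    constructor
    · intro _; exact ⟨e', by simp [comp, h2, he']⟩
    · intro _; exact ⟨e, by simp [comp, h1, he]⟩
  · have h' : ¬ ∃ e, C e * X e = -1 := fun h' => h (hX.2 h')
    have key : ∀ e, C e * comp X Y e = C e * Y e := by
      intro e
      by_cases h0 : X e = 0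
      · simp [comp, h0]
      · have a1 : C e * X e ≠ 1 := fun h1 => h ⟨e, h1⟩
        have a2 : C e * X e ≠ -1 := fun h1 => h' ⟨e, h1⟩
        have : C e = 0 := by
          revert a1 a2 h0
          generalize C e = a; generalize X e = b; revert a b; decide
        simp [this]
    simp only [key]; exact hY

/-- A pair of orthogonal families with the unsigned painting property. -/
structure DualPair (𝒞 𝒟 : Set (E → SignType)) : Prop where
  negC : ∀ C ∈ 𝒞, -C ∈ 𝒞
  negD : ∀ D ∈ 𝒟, -D ∈ 𝒟
  orth : ∀ C ∈ 𝒞, ∀ D ∈ 𝒟, Orth C D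
  paint : ∀ (e : E) (A : Set E),
    (∃ C ∈ 𝒞, C e ≠ 0 ∧ ∀ x, x ≠ e → x ∉ A → C x = 0) ∨
    (∃ D ∈ 𝒟, D e ≠ 0 ∧ ∀ x, x ≠ e → x ∈ A → D x = 0)

variable {𝒞 𝒟 : Set (E → SignType)}

theorem DualPair.signed (h : DualPair 𝒞 𝒟) (W : E → SignType) (e : E) (he : W e ≠ 0)
    (B : Finset E) : (∀ x ∈ B, W x ≠ 0) → ∀ A : Set E,
    (∃ C ∈ 𝒞, C e = W e ∧ (∀ x ∈ B, C x ≠ -W x) ∧ ∀ x, x ≠ e → x ∉ B → x ∉ A → C x = 0) ∨
    (∃ D ∈ 𝒟, D e = W e ∧ (∀ x ∈ B, D x ≠ -W x) ∧ ∀ x, x ≠ e → x ∉ B → x ∈ A → D x = 0) := by
  classical
  have s1 : ∀ a b : SignType, a ≠ 0 → b ≠ 0 → a = b ∨ -a = b := by decide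
  induction B using Finset.induction_on with
  | empty =>
    intro _ A
    rcases h.paint e A with ⟨C, hC, h0, h1⟩ | ⟨D, hD, h0, h1⟩
    · left
      rcases s1 _ _ h0 he with h2 | h2
      · exact ⟨C, hC, h2, by simp, fun x a _ b => h1 x a b⟩
      · exact ⟨-C, h.negC C hC, h2, by simp, fun x a _ b => by simp [h1 x a b]⟩
    · right
      rcases s1 _ _ h0 he with h2 | h2
      · exact ⟨D, hD, h2, by simp, fun x a _ b => h1 x a b⟩
      · exact ⟨-D, h.negD D hD, h2, by simp, fun x a _ b => by simp [h1 x a b]⟩
  | insert y B hy ih =>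
    intro hW A
    have hWy : W y ≠ 0 := hW y (by simp)
    have ih' := ih (fun x hx => hW x (by simp [hx]))
    have s2 : ∀ a : SignType, a ≠ 0 → a ≠ -a := by decide
    have s3 : ∀ a : SignType, a ≠ 0 → 0 ≠ -a := by decide
    by_cases hye : y = e
    · subst hye
      rcases ih' A with ⟨C, hC, h0, h1, h2⟩ | ⟨D, hD, h0, h1, h2⟩
      · left
        refine ⟨C, hC, h0, ?_, fun x a b c => h2 x a (fun hx => b (by simp [hx])) c⟩
        intro x hx
        rcases Finset.mem_insert.1 hx with rfl | hx
        · rw [h0]; exact s2 _ he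
        · exact h1 x hx
      · right
        refine ⟨D, hD, h0, ?_, fun x a b c => h2 x a (fun hx => b (by simp [hx])) c⟩
        intro x hx
        rcases Finset.mem_insert.1 hx with rfl | hx
        · rw [h0]; exact s2 _ he
        · exact h1 x hx
    rcases ih' (A \ {y}) with ⟨C, hC, h0, h1, h2⟩ | ⟨D, hD, h0, h1, h2⟩
    · left
      refine ⟨C, hC, h0, ?_, ?_⟩
      · intro x hx
        rcases Finset.mem_insert.1 hx with rfl | hx
        · rw [h2 x hye hy (by simp)]; exact s3 _ hWy
        · exact h1 x hx
      · intro x a b c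
        exact h2 x a (fun hx => b (by simp [hx])) (fun hx => c hx.1)
    by_cases hDy : D y = -W y
    swap
    · right
      refine ⟨D, hD, h0, ?_, ?_⟩
      · intro x hx
        rcases Finset.mem_insert.1 hx with rfl | hx
        · exact hDy
        · exact h1 x hx
      · intro x a b c
        exact h2 x a (fun hx => b (by simp [hx])) ⟨c, fun hx => b (by simp at hx; simp [hx])⟩
    rcases ih' (A ∪ {y}) with ⟨C, hC, k0, k1, k2⟩ | ⟨D', hD', k0, k1, k2⟩
    swap
    · right
      refine ⟨D', hD', k0, ?_, ?_⟩
      · intro x hx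
        rcases Finset.mem_insert.1 hx with rfl | hx
        · rw [k2 x hye hy (by simp)]; exact s3 _ hWy
        · exact k1 x hx
      · intro x a b c
        exact k2 x a (fun hx => b (by simp [hx])) (Or.inl c)
    by_cases hCy : C y = -W y
    swap
    · left
      refine ⟨C, hC, k0, ?_, ?_⟩
      · intro x hx
        rcases Finset.mem_insert.1 hx with rfl | hx
        · exact hCy
        · exact k1 x hx
      · intro x a b c
        refine k2 x a (fun hx => b (by simp [hx])) ?_
        rintro (hx | hx)
        · exact c hx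
        · exact b (by simp at hx; simp [hx])
    exfalso
    have ho := h.orth C hC D hD
    have s4 : ∀ a : SignType, a ≠ 0 → a * a = 1 := by decide
    obtain ⟨x, hx⟩ := ho.1 ⟨e, by rw [k0, h0]; exact s4 _ he⟩
    by_cases hxe : x = e
    · subst hxe; rw [k0, h0, s4 _ he] at hx; exact absurd hx (by decide)
    by_cases hxy : x = y
    · subst hxy; rw [hCy, hDy, s4 _ (by simpa using hWy)] at hx; exact absurd hx (by decide)
    by_cases hxB : x ∈ B
    · have a1 := k1 x hxB
      have a2 := h1 x hxB
      have a3 := hW x (by simp [hxB])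
      revert a1 a2 a3 hx
      generalize C x = a; generalize D x = b; generalize W x = c
      revert a b c; decide
    by_cases hxA : x ∈ A
    · rw [h2 x hxe hxB ⟨hxA, by simpa using hxy⟩] at hx; simp at hx
    · rw [k2 x hxe hxB (by rintro (h' | h'); exact hxA h'; exact hxy (by simpa using h'))] at hx
      simp at hx

/-- The sign vectors orthogonal to every member of a family. -/
def perp (𝒞 : Set (E → SignType)) : Set (E → SignType) := {X | ∀ C ∈ 𝒞, Orth C X}

theorem glue (𝒞 : Set (E → SignType)) (W : E → SignType) (R Z0 : E → Prop) (F : Finset E)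
    (h : ∀ f ∈ F, ∃ D ∈ perp 𝒞, D f = W f ∧ (∀ x, R x → D x = 0 ∨ D x = W x) ∧
      ∀ x, Z0 x → D x = 0) (hF : ∀ f ∈ F, R f) :
    ∃ Z ∈ perp 𝒞, (∀ f ∈ F, Z f = W f) ∧ (∀ x, R x → Z x = 0 ∨ Z x = W x) ∧
      ∀ x, Z0 x → Z x = 0 := by
  classical
  induction F using Finset.induction_on with
  | empty => exact ⟨0, fun C _ => orth_zero C, by simp, by simp, by simp⟩
  | insert y F hy ih =>
    obtain ⟨Z, hZ, a1, a2, a3⟩ := ih (fun f hf => h f (by simp [hf])) (fun f hf => hF f (by simp [hf]))
    obtain ⟨D, hD, b1, b2, b3⟩ := h y (by simp)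
    refine ⟨comp Z D, fun C hC => orth_comp (hZ C hC) (hD C hC), ?_, ?_, ?_⟩
    · intro f hf
      have hR := hF f hf
      rcases Finset.mem_insert.1 hf with rfl | hf
      · rcases a2 f hR with h0 | h0
        · simp [comp, h0, b1]
        · unfold comp; split_ifs with h1
          · exact b1
          · exact h0
      · unfold comp; split_ifs with h1
        · have := a1 f hf
          rcases b2 f hR with h0 | h0
          · rw [h0, ← this, h1]
          · exact h0
        · exact a1 f hf
    · intro x hx
      unfold comp; split_ifs with h1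
      · exact b2 x hx
      · exact a2 x hx
    · intro x hx; simp [comp, a3 x hx, b3 x hx]

theorem DualPair.mem_perp (h : DualPair 𝒞 𝒟) {D : E → SignType} (hD : D ∈ 𝒟) : D ∈ perp 𝒞 :=
  fun C hC => h.orth C hC D hD

/-- The oriented matroid of a dual pair. -/
def DualPair.om [Fintype E] (h : DualPair 𝒞 𝒟) : OM E where
  L := perp 𝒞
  zero_mem := fun C _ => orth_zero C
  neg_mem := fun _ hX C hC => orth_neg_right (hX C hC)
  comp_mem := fun _ hX _ hY C hC => orth_comp (hX C hC) (hY C hC)
  elim := by
    classical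
    intro X hX Y hY e he
    have key := glue 𝒞 (comp X Y) (fun x => ¬ Sep X Y x) (fun x => x = e)
      (Finset.univ.filter fun f => ¬ Sep X Y f ∧ comp X Y f ≠ 0) ?_ ?_
    · obtain ⟨Z, hZ, a1, a2, a3⟩ := key
      refine ⟨Z, hZ, a3 e rfl, fun f hf => ?_⟩
      by_cases h0 : comp X Y f = 0
      · rcases a2 f hf with h1 | h1
        · rw [h1, h0]
        · exact h1
      · exact a1 f (by simp [hf, h0])
    · intro f hf
      simp only [Finset.mem_filter, Finset.mem_univ, true_and] at hf
      have hfe : f ≠ e := by rintro rfl; exact hf.1 he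
      rcases h.signed (comp X Y) f hf.2
        (Finset.univ.filter fun f => ¬ Sep X Y f ∧ comp X Y f ≠ 0) (by simp)
        {x | x = e ∨ comp X Y x = 0} with ⟨C, hC, c0, c1, c2⟩ | ⟨D, hD, d0, d1, d2⟩
      · exfalso
        have hprod : ∀ x, x ≠ e → C x * X x ≠ -1 ∧ C x * Y x ≠ -1 := by
          intro x hx
          by_cases hxf : x = f
          · subst hxf
            have := hf.1
            rw [c0]; revert this; unfold comp Sep
            generalize X x = a; generalize Y x = b; revert a b; decide
          by_cases hs : ¬ Sep X Y x ∧ comp X Y x ≠ 0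
          · have a1 := c1 x (by simpa using hs)
            have a2 := hs.1
            have a3 := hs.2
            revert a1 a2 a3; unfold comp Sep
            generalize X x = a; generalize Y x = b; generalize C x = c; revert a b c; decide
          by_cases hc : comp X Y x = 0
          · revert hc; unfold comp
            generalize X x = a; generalize Y x = b; generalize C x = c; revert a b c; decide
          · rw [c2 x hxf (by simpa using hs) (by simp [hx, hc])]; simp
        have hXC := hX C hC
        have hYC := hY C hC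
        have hor : C f * X f = 1 ∨ C f * Y f = 1 := by
          have a2 := hf.1
          have a3 := hf.2
          rw [c0]; revert a2 a3; unfold comp Sep
          generalize X f = a; generalize Y f = b; revert a b; decide
        have he1 := he.1
        have he2 := he.2
        rcases hor with h1 | h1
        · obtain ⟨x, hx⟩ := hXC.1 ⟨f, h1⟩
          by_cases hxe : x = e
          · subst hxe
            obtain ⟨y, hy⟩ := hYC.1 ⟨x, by
              rw [he2]; revert hx; generalize C x = a; generalize X x = b; revert a b; decide⟩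
            by_cases hye : y = x
            · subst hye; rw [he2] at hy; revert hx hy
              generalize C y = a; generalize X y = b; revert a b; decide
            · exact (hprod y hye).2 hy
          · exact (hprod x hxe).1 hx
        · obtain ⟨x, hx⟩ := hYC.1 ⟨f, h1⟩
          by_cases hxe : x = e
          · subst hxe
            rw [he2] at hx
            obtain ⟨y, hy⟩ := hXC.1 ⟨x, by
              revert hx; generalize C x = a; generalize X x = b; revert a b; decide⟩
            by_cases hye : y = x
            · subst hye; revert hx hy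
              generalize C y = a; generalize X y = b; revert a b; decide
            · exact (hprod y hye).1 hy
          · exact (hprod x hxe).2 hx
      · refine ⟨D, h.mem_perp hD, d0, ?_, ?_⟩
        · intro x hx
          by_cases hxf : x = f
          · subst hxf; exact Or.inr d0
          by_cases hc : comp X Y x = 0
          · left; exact d2 x hxf (by simp [hc]) (Or.inr hc)
          · have a1 := d1 x (by simp [hx, hc])
            revert a1 hc; generalize comp X Y x = a; generalize D x = b; revert a b; decide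
        · rintro x rfl
          exact d2 x hfe.symm (by simp [he]) (Or.inl rfl)
    · intro f hf
      simp only [Finset.mem_filter, Finset.mem_univ, true_and] at hf
      exact hf.1

@[simp] theorem DualPair.om_L [Fintype E] (h : DualPair 𝒞 𝒟) : h.om.L = perp 𝒞 := rfl

theorem DualPair.cover [Fintype E] (h : DualPair 𝒞 𝒟) {X : E → SignType} (hX : X ∈ perp 𝒞)
    {f : E} (hf : X f ≠ 0) : ∃ D ∈ 𝒟, D f = X f ∧ ∀ x, D x = 0 ∨ D x = X x := by
  classical
  rcases h.signed X f hf (Finset.univ.filter fun x => X x ≠ 0) (by simp) Set.univ with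
    ⟨C, hC, c0, c1, -⟩ | ⟨D, hD, d0, d1, d2⟩
  · exfalso
    obtain ⟨x, hx⟩ := (hX C hC).1 ⟨f, by
      rw [c0]; revert hf; generalize X f = a; revert a; decide⟩
    by_cases h0 : X x = 0
    · rw [h0] at hx; simp at hx
    · have a1 := c1 x (by simpa using h0)
      revert a1 hx; generalize C x = a; generalize X x = b; revert a b; decide
  · refine ⟨D, hD, d0, fun x => ?_⟩
    by_cases hxf : x = f
    · subst hxf; exact Or.inr d0
    by_cases h0 : X x = 0
    · left; exact d2 x hxf (by simp [h0]) trivial
    · have a1 := d1 x (by simpa using h0)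
      revert a1 h0; generalize D x = a; generalize X x = b; revert a b; decide

theorem DualPair.cocircuit_mem [Fintype E] (h : DualPair 𝒞 𝒟) {Y : E → SignType}
    (hY : h.om.IsCocircuit Y) : Y ∈ 𝒟 := by
  obtain ⟨h1, h2, h3⟩ := hY
  obtain ⟨f, hf⟩ : ∃ f, Y f ≠ 0 := by
    by_contra hc; push Not at hc; exact h2 (funext hc)
  obtain ⟨D, hD, d0, d1⟩ := h.cover h1 hf
  have hs := h3 D (h.mem_perp hD) (by intro h0; rw [h0] at d0; exact hf d0.symm) (by
    intro x hx
    rcases d1 x with h0 | h0
    · exact absurd h0 hx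
    · rw [Function.mem_support, ← h0]; exact hx)
  have : D = Y := by
    funext x
    rcases d1 x with h0 | h0
    · by_contra hne
      have : x ∈ Function.support Y := by
        rw [Function.mem_support]; intro h4; exact hne (by rw [h0, h4])
      rw [← hs] at this; exact this h0
    · exact h0
  exact this ▸ hD

theorem mem_closure_of {O : OM E} {C : E → SignType} (hC : ∀ X ∈ O.L, Orth C X) {e : E}
    (he : C e ≠ 0) {A : Set E} (hA : ∀ x, x ≠ e → x ∉ A → C x = 0) : e ∈ O.closure A := by
  intro X hX h0
  have ho := hC X hX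
  have hz : ∀ x, x ≠ e → C x * X x = 0 := by
    intro x hx
    by_cases hxA : x ∈ A
    · simp [h0 x hxA]
    · simp [hA x hx hxA]
  by_contra hne
  have : C e * X e = 1 ∨ C e * X e = -1 := by
    revert he hne; generalize C e = a; generalize X e = b; revert a b; decide
  rcases this with h1 | h1
  · obtain ⟨x, hx⟩ := ho.1 ⟨e, h1⟩
    by_cases hxe : x = e
    · subst hxe; rw [h1] at hx; exact absurd hx (by decide)
    · rw [hz x hxe] at hx; exact absurd hx (by decide)
  · obtain ⟨x, hx⟩ := ho.2 ⟨e, h1⟩
    by_cases hxe : x = e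
    · subst hxe; rw [h1] at hx; exact absurd hx (by decide)
    · rw [hz x hxe] at hx; exact absurd hx (by decide)

theorem not_mem_closure_of {O : OM E} {D : E → SignType} (hD : D ∈ O.L) {e : E}
    (he : D e ≠ 0) {A : Set E} (hA : ∀ x ∈ A, D x = 0) : e ∉ O.closure A :=
  fun h => he (h D hD hA)

theorem orth_lift {C X : E → SignType} {X' : Option E → SignType}
    (hX : (fun e => X' (some e)) = X) : Orth (fun x : Option E => x.elim 0 C) X' ↔ Orth C X := by
  subst hX
  unfold Orth
  have : ∀ s : SignType, s ≠ 0 →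
      ((∃ e : Option E, e.elim 0 C * X' e = s) ↔ ∃ e, C e * X' (some e) = s) := by
    intro s hs
    constructor
    · rintro ⟨_ | e, he⟩
      · simp at he; exact absurd he.symm hs
      · exact ⟨e, he⟩
    · rintro ⟨e, he⟩; exact ⟨some e, he⟩
  rw [this 1 (by decide), this (-1) (by decide)]

theorem DualPair.isExtension [Fintype E] (h : DualPair 𝒞 𝒟)
    {𝒞' 𝒟' : Set (Option E → SignType)} (h' : DualPair 𝒞' 𝒟')
    (ha : ∀ C ∈ 𝒞, (fun x : Option E => x.elim 0 C) ∈ 𝒞')
    (hb : ∀ C' ∈ 𝒞', C' none = 0 → (fun e => C' (some e)) ∈ 𝒞) :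
    h.om.IsExtension h'.om := by
  classical
  intro X
  constructor
  · intro hX
    have key := glue 𝒞' (fun x : Option E => x.elim 0 X) (fun x => x ≠ none) (fun _ => False)
      (Finset.univ.filter fun f : Option E => f.elim 0 X ≠ 0) ?_ ?_
    · obtain ⟨Z, hZ, a1, a2, -⟩ := key
      refine ⟨Z, hZ, funext fun e => ?_⟩
      by_cases h0 : X e = 0
      · rcases a2 (some e) (by simp) with h1 | h1
        · rw [h1, h0]
        · exact h1
      · exact a1 (some e) (by simpa using h0)
    · intro f hf
      simp only [Finset.mem_filter, Finset.mem_univ, true_and] at hf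
      have hfn : f ≠ none := by rintro rfl; exact hf rfl
      rcases h'.signed (fun x : Option E => x.elim 0 X) f hf
        (Finset.univ.filter fun f : Option E => f.elim 0 X ≠ 0) (by simp)
        {x | x ≠ none} with ⟨C, hC, c0, c1, c2⟩ | ⟨D, hD, d0, d1, d2⟩
      · exfalso
        have hCn : C none = 0 := c2 none hfn.symm (by simp) (by simp)
        have ho := hX _ (hb C hC hCn)
        obtain ⟨f, rfl⟩ := Option.ne_none_iff_exists'.1 hfn
        obtain ⟨x, hx⟩ := ho.1 ⟨f, by
          simp only [c0, Option.elim] at hf ⊢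
          revert hf; generalize X f = a; revert a; decide⟩
        by_cases h0 : X x = 0
        · rw [h0] at hx; simp at hx
        · have a1 := c1 (some x) (by simpa using h0)
          simp only [Option.elim] at a1 hx
          revert a1 hx; generalize C (some x) = a; generalize X x = b; revert a b; decide
      · refine ⟨D, h'.mem_perp hD, d0, ?_, by simp⟩
        intro x hx
        by_cases hxf : x = f
        · subst hxf; exact Or.inr d0
        by_cases h0 : x.elim 0 X = 0
        · left; exact d2 x hxf (by simp [h0]) hx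
        · have a1 := d1 x (by simpa using h0)
          revert a1 h0; generalize D x = a; generalize x.elim 0 X = b; revert a b; decide
    · intro f hf
      simp only [Finset.mem_filter, Finset.mem_univ, true_and] at hf
      rintro rfl; exact hf rfl
  · rintro ⟨X', hX', hX⟩ C hC
    exact (orth_lift hX).1 (hX' _ (ha C hC))

theorem cocircuit_lift {O : OM E} {O' : OM (Option E)} (h : O.IsExtension O')
    {Y : E → SignType} (hY : O.IsCocircuit Y) (hL : (fun x : Option E => x.elim 0 Y) ∈ O'.L) :
    O'.IsCocircuit (fun x => x.elim 0 Y) := by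
  obtain ⟨-, h2, h3⟩ := hY
  refine ⟨hL, fun h0 => h2 (funext fun e => congrFun h0 (some e)), ?_⟩
  intro X hX hne hs
  have hn : X none = 0 := by
    by_contra hc
    exact hs (show none ∈ Function.support X from hc) rfl
  have h4 := h3 (fun e => X (some e)) ((h _).2 ⟨X, hX, rfl⟩) (by
    intro h0; apply hne; funext x
    cases x with
    | none => exact hn
    | some e => exact congrFun h0 e) (fun e he => hs (show some e ∈ Function.support X from he))
  refine Set.Subset.antisymm hs ?_
  rintro (_ | e) he
  · exact absurd rfl he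
  · have : e ∈ Function.support Y := he
    rw [← h4] at this; exact this

/-- Pulling an oriented matroid back along a map of ground sets. -/
def OM.pull {E' : Type} (O : OM E) (π : E' → E) : OM E' where
  L := {X' | ∃ X ∈ O.L, X' = fun x => X (π x)}
  zero_mem := ⟨0, O.zero_mem, rfl⟩
  neg_mem := by rintro _ ⟨X, hX, rfl⟩; exact ⟨-X, O.neg_mem X hX, rfl⟩
  comp_mem := by
    rintro _ ⟨X, hX, rfl⟩ _ ⟨Y, hY, rfl⟩; exact ⟨comp X Y, O.comp_mem X hX Y hY, rfl⟩
  elim := by
    rintro _ ⟨X, hX, rfl⟩ _ ⟨Y, hY, rfl⟩ e he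
    obtain ⟨Z, hZ, h0, h1⟩ := O.elim X hX Y hY (π e) he
    exact ⟨_, ⟨Z, hZ, rfl⟩, h0, fun f hf => h1 (π f) hf⟩

theorem parallel_case {O : OM E} {g f : E} (hgf : f ∉ O.closure {g}) {Y : E → SignType}
    (hY : O.IsCocircuit Y) (hf : Y f = 0) :
    ∃ O' : OM (Option E), O.IsExtension O' ∧
      none ∈ O'.closure {some g, some f} ∧ none ∉ O'.closure {some g} ∧
      O'.IsCocircuit (fun x => x.elim 0 Y) := by
  have hext : O.IsExtension (O.pull fun x : Option E => x.getD f) := by
    intro X
    constructor
    · intro hX; exact ⟨_, ⟨X, hX, rfl⟩, rfl⟩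
    · rintro ⟨_, ⟨Z, hZ, rfl⟩, rfl⟩; exact hZ
  refine ⟨O.pull fun x : Option E => x.getD f, hext, ?_, ?_, cocircuit_lift hext hY ?_⟩
  · rintro _ ⟨X, -, rfl⟩ h0
    exact h0 (some f) (by simp)
  · intro hc
    apply hgf
    intro X hX h0
    exact hc _ ⟨X, hX, rfl⟩ (by rintro _ rfl; exact h0 g rfl)
  · refine ⟨Y, hY.1, funext ?_⟩
    rintro (_ | e)
    · exact hf.symm
    · rfl

theorem isTope_iff {O : OM E} {T0 : E → SignType} (h0 : T0 ∈ O.L) (h1 : ∀ e, T0 e ≠ 0)
    (T : E → SignType) : O.IsTope T ↔ T ∈ O.L ∧ ∀ e, T e ≠ 0 := by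
  constructor
  · rintro ⟨a1, a2⟩
    refine ⟨a1, fun e he => ?_⟩
    have := a2 _ (O.comp_mem T a1 T0 h0) (fun x hx => by simp [comp, hx])
    have h3 := congrFun this e
    simp [comp, he] at h3
    exact h1 e h3
  · rintro ⟨a1, a2⟩
    exact ⟨a1, fun X _ hX => funext fun e => hX e (a2 e)⟩

end Pool.Agent.P.MP_c821f2_co
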